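import Pool.Agent.Lib.MP_3309cd_pr.Generic
import Pool.Agent.Lib.MP_3309cd_pr.MixStay
import Pool.Agent.Lib.MP_3309cd_pr.NotDiff
import Pool.Agent.Lib.MP_3309cd_pr.Ray
import Pool.Agent.Lib.MP_3309cd_pr.RayB
import Pool.Agent.Lib.MP_3309cd_pr.RayMeas
import Pool.Agent.Lib.MP_3309cd_pr.Poi

/-!
MP_3309cd_pr, Q1 (negative answer): for a suitable non-degenerate law `μ` of rational angles and a
suitable mirror length, the light ray is unbounded with positive probability but not diffusive,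
for all directions in a comeagre set.
-/

namespace Pool.Agent.Results.MP_3309cd_pr.GenericNonDiffusive

open MeasureTheory ProbabilityTheory Set Filter Topology
open Pool.Agent.Lib.MP_3309cd_pr

/-- There are a probability measure `μ` supported on the rational angles in `[0, π)`, not a single
atom, a length `ε > 0` and a rate one Poisson configuration `C` of mirrors of length `ε` with
inclinations of law `μ`, such that for every function `g` tending to infinity there is a comeagre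
(in particular nonempty) set `A` of directions such that for `α ∈ A` the light ray exists, is
unbounded with positive probability, is not diffusive on the event that it is unbounded, and,
conditionally on this event, is at distance less than `g t` from the origin with probability tending
to `1` along a sequence of times `t` tending to infinity. -/
theorem result : ∃ μ : Measure ℝ, IsProbabilityMeasure μ ∧
    (∀ᵐ θ ∂μ, θ ∈ Ico 0 Real.pi ∧ ∃ q : ℚ, θ = Real.pi * q) ∧ (∀ θ, μ {θ} ≠ 1) ∧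
    ∃ ε : ℝ, 0 < ε ∧ ∃ (Ω : Type) (_ : MeasurableSpace Ω) (P : Measure Ω) (C : Ω → Set Mir),
      IsProbabilityMeasure P ∧ IsPoisson P μ C ∧
      ∀ g : ℝ → ℝ, Tendsto g atTop atTop → ∃ A ∈ residual ℝ, A.Nonempty ∧ ∀ α ∈ A,
        (∃ X : Ω → ℝ → ℂ, (∀ t, Measurable fun ω => X ω t) ∧
          ∀ᵐ ω ∂P, IsRay (ε / 2) (C ω) (dir α) (X ω)) ∧
        ∀ X : Ω → ℝ → ℂ, (∀ᵐ ω ∂P, IsRay (ε / 2) (C ω) (dir α) (X ω)) →
          0 < P (Unb X) ∧ ¬ Diffusive P X ∧
          ∃ t : ℕ → ℝ, Tendsto t atTop atTop ∧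
            Tendsto (fun n => ProbabilityTheory.cond P (Unb X) {ω | g (t n) ≤ ‖X ω (t n)‖})
              atTop (𝓝 0) := by
  obtain ⟨μ, hP, hsupp, hnd, hst⟩ := exists_measure
  refine ⟨μ, hP, hsupp, hnd, 2 * hl, by norm_num [hl, sd], Om, inferInstance, PP μ, conf, ?_,
    isPoisson_conf μ, ?_⟩
  · unfold PP cellLaw ptLaw; infer_instance
  intro g hg
  have hhl : 0 < hl := by norm_num [hl, sd]
  rw [show (2 : ℝ) * hl / 2 = hl by ring]
  have hprob : IsProbabilityMeasure (PP μ) := by unfold PP cellLaw ptLaw; infer_instance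
  -- the scales
  have hgk : ∀ k : ℕ, Tendsto (fun t : ℝ => min (g t) (√t / (k + 1))) atTop atTop := by
    intro k
    apply Filter.tendsto_atTop.2
    intro b
    have h1 : ∀ᶠ t in atTop, b ≤ g t := hg.eventually_ge_atTop b
    have h2 : ∀ᶠ t : ℝ in atTop, b ≤ √t / (k + 1) := by
      have : Tendsto (fun t : ℝ => √t / (k + 1)) atTop atTop :=
        Real.tendsto_sqrt_atTop.atTop_div_const (by positivity)
      exact this.eventually_ge_atTop b
    filter_upwards [h1, h2] with t h1 h2 using le_min h1 h2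
  have hgen := generic μ (hsupp.mono fun θ hθ => hθ.2) hst
    (fun k t => min (g t) (√t / (k + 1))) hgk
  refine ⟨_, hgen, ?_, ?_⟩
  · exact (dense_of_mem_residual hgen).nonempty
  rintro α ⟨hα1, hα2⟩
  have hu : ‖dir α‖ = 1 := norm_dir α
  have hu0 : dir α ≠ 0 := dir_ne_zero α
  obtain ⟨X₀, hX₀m, hX₀⟩ := exists_meas_ray (dir α)
  have hgood : ∀ᵐ ω ∂(PP μ), (∀ m ∈ conf ω, (0 : ℂ) ∉ seg hl m) ∧ SReg hl (conf ω) 0 (dir α) := by
    filter_upwards [ae_zero μ, ae_sreg μ hu] with ω h1 h2 using ⟨h1, h2⟩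
  refine ⟨⟨X₀, hX₀m, ?_⟩, ?_⟩
  · filter_upwards [hgood] with ω hω
    exact isRay_of_pos (conf_LF ω) hu0 hω.1 hω.2 (hX₀ ω)
  intro X hX
  -- X agrees with X₀
  have heq : ∀ᵐ ω ∂(PP μ), ∀ t, 0 ≤ t → X ω t = X₀ ω t := by
    filter_upwards [hX, hgood] with ω h1 h2 t ht
    obtain ⟨L, r, hL, hr, hF, rfl⟩ := ray_rep (conf_LF ω) hu0 h2.1 h2.2 ht
    rw [ray_pos (conf_LF ω) h1 hL hr hF, hX₀ ω L r hL hr hF]
  have hXm : ∀ t, 0 ≤ t → AEMeasurable (fun ω => X ω t) (PP μ) := fun t ht =>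
    ⟨fun ω => X₀ ω t, hX₀m t, heq.mono fun ω hω => hω t ht⟩
  have hpos : (1 / 4 : ENNReal) ≤ PP μ (Unb X) := by
    have h1 : PP μ (⋂ n : ℕ, {ω | Exit hl (conf ω) (dir α) n}) ≤ PP μ (Unb X) := by
      apply measure_mono_ae
      filter_upwards [hX] with ω h1 h2 R
      obtain ⟨n, hn⟩ := exists_nat_gt R
      obtain ⟨L, hL, r, hr, hF, hR⟩ := mem_iInter.1 h2 n
      refine ⟨tim 0 (dir α) L + r, add_nonneg hL.tim_nonneg hr, ?_⟩
      rw [ray_pos (conf_LF ω) h1 hL hr hF]
      linarith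
    refine le_trans ?_ h1
    have hanti : Antitone fun n : ℕ => {ω : Om | Exit hl (conf ω) (dir α) n} := by
      intro a b hab ω hω
      obtain ⟨L, hL, r, hr, hF, hR⟩ := hω
      exact ⟨L, hL, r, hr, hF, lt_of_le_of_lt (by exact_mod_cast hab) hR⟩
    have ht := tendsto_measure_iInter_atTop (μ := PP μ)
      (s := fun n : ℕ => {ω : Om | Exit hl (conf ω) (dir α) n})
      (fun n => (meas_exit (dir α) n).nullMeasurableSet) hanti ⟨0, measure_ne_top _ _⟩
    exact ge_of_tendsto' ht fun n => (hα1 n).le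
  have hpos' : PP μ (Unb X) ≠ 0 := by
    intro h0
    rw [h0] at hpos
    simp at hpos
  -- small distances at the chosen times
  choose T hT1 hT2 using hα2
  have hsmall : ∀ k : ℕ, ENNReal.ofReal (1 - 1 / (k + 1)) ≤
      PP μ {ω | ‖X ω (T k)‖ < min (g (T k)) (√(T k) / (k + 1))} := by
    intro k
    refine (hT2 k).le.trans ?_
    apply measure_mono_ae
    filter_upwards [hX] with ω h1 h2
    have ht0 : 0 ≤ T k := by
      have h3 : (0 : ℝ) ≤ k + 1 := by positivity
      linarith [hT1 k]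
    obtain ⟨L, r, hL, hr, hF, he, hlt⟩ := stay_norm_lt ht0 h2
    show ‖X ω (T k)‖ < _
    rw [← he, ray_pos (conf_LF ω) h1 hL hr hF, he]
    exact hlt
  refine ⟨lt_of_lt_of_le (by simp) hpos, ?_, T, ?_, ?_⟩
  · apply not_diffusive (PP μ) hXm hpos'
    intro k
    refine ⟨T k, hT1 k, (hsmall k).trans (measure_mono fun ω hω => ?_)⟩
    exact lt_of_lt_of_le (mem_ofPred_eq ▸ hω : ‖X ω (T k)‖ < _) (min_le_right _ _)
  · exact tendsto_atTop_mono hT1 (tendsto_natCast_atTop_atTop.atTop_add tendsto_const_nhds)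
  · refine cond_small (PP μ) hXm hpos' g hT1 fun k => (hsmall k).trans (measure_mono fun ω hω => ?_)
    exact lt_of_lt_of_le (mem_ofPred_eq ▸ hω : ‖X ω (T k)‖ < _) (min_le_left _ _)

end Pool.Agent.Results.MP_3309cd_pr.GenericNonDiffusive
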